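import Mathlib

/-!
Where `𝔟_b^eq` lies with respect to `𝔟` (theorems of ZFC, for every `b` with all values `≥ 2`).

Let `e_b` be the least size of a set `F ⊆ ∏ b` such that no `h ∈ ∏ b` agrees infinitely often with
every member of `F`.  Then `min {𝔟, e_b} ≤ 𝔟_b^eq ≤ e_b`.  So `𝔟_b^eq < 𝔟` holds if and only if
`e_b < 𝔟`, and then `𝔟_b^eq = e_b ≥ cov(ℳ)` and `b` tends to infinity.  If `b` does not tend to
infinity, then `𝔟_b^eq = non(ℳ)`.  If the series of the `1 / b n` converges, then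
`e_b ≤ non(𝒩)`, and if it diverges, then `cov(𝒩) ≤ 𝔟_b^eq`.
-/

open Filter MeasureTheory
open scoped Cardinal ENNReal

namespace Pool.Agent.Results.MP_b3eba0_lc.BelowBounding

/-- The Cantor space `2^ω`, with the product topology. -/
abbrev Cantor : Type := ℕ → Bool

/-- The product measure on `2^ω` of the uniform measures on the two-point space. -/
noncomputable def coin : Measure Cantor :=
  Measure.infinitePi fun _ : ℕ => (PMF.uniformOfFintype Bool).toMeasure

/-- The ideal `𝒩` of null sets. -/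
def nullIdeal : Set (Set Cantor) := {A | coin A = 0}

/-- The ideal `ℳ` of meager sets. -/
def meagerIdeal : Set (Set Cantor) := {A | IsMeagre A}

/-- The covering number of an ideal. -/
noncomputable def cov (I : Set (Set Cantor)) : Cardinal.{0} :=
  sInf {κ | ∃ 𝒜 : Set (Set Cantor), 𝒜 ⊆ I ∧ ⋃₀ 𝒜 = Set.univ ∧ κ = #𝒜}

/-- The uniformity of an ideal. -/
noncomputable def non (I : Set (Set Cantor)) : Cardinal.{0} :=
  sInf {κ | ∃ A : Set Cantor, A ∉ I ∧ κ = #A}

/-- The bounding number `𝔟`. -/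
noncomputable def bNum : Cardinal.{0} :=
  sInf {κ | ∃ F : Set (ℕ → ℕ), (¬ ∃ g : ℕ → ℕ, ∀ f ∈ F, ∀ᶠ n in atTop, f n ≤ g n) ∧ κ = #F}

/-- `J` is a partition of `ω` into finite non-empty intervals. -/
structure IsIntervalPartition (J : ℕ → Finset ℕ) : Prop where
  nonempty : ∀ n, (J n).Nonempty
  interval : ∀ n, ∀ i ∈ J n, ∀ k ∈ J n, ∀ j, i ≤ j → j ≤ k → j ∈ J n
  disjoint : ∀ m n, m ≠ n → Disjoint (J m) (J n)
  cover : ∀ k, ∃ n, k ∈ J n

/-- The relation `f ⊏• (J, h)`: for all but finitely many `n` there is `k ∈ J n` with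
`f k = h k`. -/
def Matches {b : ℕ → ℕ} (f : ∀ n, Fin (b n)) (J : ℕ → Finset ℕ) (h : ∀ n, Fin (b n)) : Prop :=
  ∀ᶠ n in atTop, ∃ k ∈ J n, f k = h k

/-- The cardinal `𝔟_b^eq`. -/
noncomputable def bEq (b : ℕ → ℕ) : Cardinal.{0} :=
  sInf {κ | ∃ F : Set (∀ n, Fin (b n)),
    (¬ ∃ (J : ℕ → Finset ℕ) (h : ∀ n, Fin (b n)), IsIntervalPartition J ∧
      ∀ f ∈ F, Matches f J h) ∧ κ = #F}

/-- The cardinal `e_b`: the least size of a subset `F` of `∏ b` such that no `h ∈ ∏ b` agrees
infinitely often with every `f ∈ F`. -/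
noncomputable def eNum (b : ℕ → ℕ) : Cardinal.{0} :=
  sInf {κ | ∃ F : Set (∀ n, Fin (b n)),
    (¬ ∃ h : ∀ n, Fin (b n), ∀ f ∈ F, ∃ᶠ n in atTop, f n = h n) ∧ κ = #F}

/-! ### meager sets -/

theorem step_list {C : Set Cantor} (hC : IsNowhereDense C) (hcl : IsClosed C) (j₀ : ℕ)
    (L : List Cantor) : ∃ (j₁ : ℕ) (t : Cantor), j₀ < j₁ ∧ ∀ s ∈ L, ∀ a : Cantor,
      (∀ k < j₀, a k = s k) → (∀ k, j₀ ≤ k → k < j₁ → a k = t k) → a ∉ C := by
  induction L with
  | nil => exact ⟨j₀ + 1, fun _ => true, Nat.lt_succ_self _, by simp⟩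
  | cons s L ih =>
    obtain ⟨j₁, t, hj, ht⟩ := ih
    let p : Cantor := fun k => if k < j₀ then s k else t k
    have hne : ∃ q ∈ PiNat.cylinder p j₁, q ∉ C := by
      by_contra hcon
      push Not at hcon
      have h1 : PiNat.cylinder p j₁ ⊆ interior C :=
        interior_maximal hcon (PiNat.isOpen_cylinder _ _ _)
      have h2 : interior C = ∅ := by
        have := hC
        unfold IsNowhereDense at this
        rwa [hcl.closure_eq] at this
      rw [h2] at h1
      exact h1 (PiNat.self_mem_cylinder p j₁)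
    obtain ⟨q, hq, hqC⟩ := hne
    have hopen : IsOpen Cᶜ := hcl.isOpen_compl
    have hbasis := PiNat.isTopologicalBasis_cylinders (E := fun _ : ℕ => Bool)
    obtain ⟨U, ⟨z, n, rfl⟩, hxU, hU⟩ := hbasis.exists_subset_of_mem_open hqC hopen
    rw [PiNat.mem_cylinder_iff] at hq hxU
    refine ⟨max j₁ n, q, lt_of_lt_of_le hj (le_max_left _ _), ?_⟩
    intro s' hs' a ha ha'
    rcases List.mem_cons.1 hs' with rfl | hs'
    · apply hU
      rw [PiNat.mem_cylinder_iff]
      intro i hi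
      rw [← hxU i hi]
      by_cases hij : i < j₀
      · rw [ha i hij, hq i (hij.trans hj)]
        simp only [p, hij, if_true]
      · exact ha' i (not_lt.1 hij) (lt_of_lt_of_le hi (le_max_right _ _))
    · apply ht s' hs' a ha
      intro k hk hk'
      rw [ha' k hk (lt_of_lt_of_le hk' (le_max_left _ _)), hq k hk']
      simp only [p, not_lt.2 hk, if_false]

theorem step_all {C : Set Cantor} (hC : IsNowhereDense C) (hcl : IsClosed C) (j₀ : ℕ) :
    ∃ (j₁ : ℕ) (t : Cantor), j₀ < j₁ ∧ ∀ a : Cantor,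
      (∀ k, j₀ ≤ k → k < j₁ → a k = t k) → a ∉ C := by
  classical
  let ext : (Fin j₀ → Bool) → Cantor := fun u k => if h : k < j₀ then u ⟨k, h⟩ else false
  obtain ⟨j₁, t, hj, ht⟩ := step_list hC hcl j₀
    ((Finset.univ : Finset (Fin j₀ → Bool)).toList.map ext)
  refine ⟨j₁, t, hj, fun a ha => ?_⟩
  apply ht (ext fun i => a i)
  · rw [List.mem_map]
    exact ⟨fun i => a i, Finset.mem_toList.2 (Finset.mem_univ _), rfl⟩
  · intro k hk
    simp only [ext, hk, dif_pos]
  · exact ha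

/-- The index of the block containing `k`. -/
noncomputable def idx (j : ℕ → ℕ) (k : ℕ) : ℕ := sInf {n | k < j (n + 1)}

theorem idx_eq {j : ℕ → ℕ} (hj : StrictMono j) {n k : ℕ} (h1 : j n ≤ k) (h2 : k < j (n + 1)) :
    idx j k = n := by
  unfold idx
  apply le_antisymm
  · exact Nat.sInf_le h2
  · apply le_csInf ⟨n, h2⟩
    intro m hm
    by_contra hcon
    have h3 : m + 1 ≤ n := not_le.1 hcon
    have h4 : j (m + 1) ≤ j n := hj.monotone h3
    have h5 : k < j (m + 1) := hm
    omega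

theorem meagre_char {A : Set Cantor} (hA : IsMeagre A) : ∃ (j : ℕ → ℕ) (x : Cantor),
    StrictMono j ∧ j 0 = 0 ∧ ∀ a ∈ A, ∀ᶠ n in atTop, ∃ k, j n ≤ k ∧ k < j (n + 1) ∧
      a k ≠ x k := by
  classical
  rw [isMeagre_iff_countable_union_isNowhereDense] at hA
  obtain ⟨S, hS, hSc, hSA⟩ := hA
  -- an enumeration
  have hne : (insert ∅ S : Set (Set Cantor)).Nonempty := Set.insert_nonempty _ _
  obtain ⟨N, hN⟩ := (hSc.insert ∅).exists_eq_range hne
  have hNn : ∀ i, IsNowhereDense (N i) := by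
    intro i
    have : N i ∈ insert ∅ S := by rw [hN]; exact ⟨i, rfl⟩
    rcases this with h | h
    · rw [h]; exact isNowhereDense_empty
    · exact hS _ h
  let M : ℕ → Set Cantor := fun n => ⋃ i ∈ Finset.range (n + 1), closure (N i)
  have hMcl : ∀ n, IsClosed (M n) := by
    intro n
    exact isClosed_biUnion_finset fun i _ => isClosed_closure
  have hMn : ∀ n, IsNowhereDense (M n) := by
    intro n
    induction n with
    | zero =>
      simp only [M, zero_add, Finset.range_one, Finset.mem_singleton, Set.iUnion_iUnion_eq_left]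
      exact (hNn 0).closure
    | succ n ih =>
      have : M (n + 1) = M n ∪ closure (N (n + 1)) := by
        simp only [M]
        rw [Finset.range_add_one (n := n + 1), Finset.set_biUnion_insert, Set.union_comm]
      rw [this]
      have h1 : interior (M n) = ∅ := by
        have h := ih
        unfold IsNowhereDense at h
        rwa [(hMcl n).closure_eq] at h
      have h2 : interior (closure (N (n + 1))) = ∅ := hNn (n + 1)
      unfold IsNowhereDense
      rw [((hMcl n).union isClosed_closure).closure_eq,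
        interior_union_isClosed_of_interior_empty (hMcl n) h2, h1]
  choose nx pat hlt hpat using fun n j₀ => step_all (hMn n) (hMcl n) j₀
  let j : ℕ → ℕ := fun n => Nat.rec 0 (fun n r => nx n r) n
  have hj0 : j 0 = 0 := rfl
  have hjs : ∀ n, j (n + 1) = nx n (j n) := fun n => rfl
  have hjm : StrictMono j := by
    apply strictMono_nat_of_lt_succ
    intro n
    rw [hjs]
    exact hlt n (j n)
  refine ⟨j, fun k => pat (idx j k) (j (idx j k)) k, hjm, hj0, ?_⟩
  intro a ha
  obtain ⟨T, hT, haT⟩ := hSA ha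
  have : T ∈ insert ∅ S := Or.inr hT
  rw [hN] at this
  obtain ⟨i, rfl⟩ := this
  refine eventually_atTop.2 ⟨i, fun n hn => ?_⟩
  apply Classical.by_contradiction
  intro hcon
  push Not at hcon
  apply hpat n (j n) a
  · intro k hk hk'
    rw [← hjs] at hk'
    rw [hcon k hk hk', idx_eq hjm hk hk']
  · simp only [M, Set.mem_iUnion, Finset.mem_range]
    exact ⟨i, by omega, subset_closure haT⟩

theorem bounded_match (K : ℕ) : ∀ G : Set (ℕ → ℕ), (∀ g ∈ G, ∀ k, g k ≤ K) →
    #G < non meagerIdeal → ∃ j h : ℕ → ℕ, StrictMono j ∧ j 0 = 0 ∧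
      ∀ g ∈ G, ∀ᶠ n in atTop, ∃ k, j n ≤ k ∧ k < j (n + 1) ∧ g k = h k := by
  classical
  induction K with
  | zero =>
    intro G hG _
    refine ⟨id, fun _ => 0, strictMono_id, rfl, fun g hg => ?_⟩
    refine Eventually.of_forall fun n => ⟨n, le_rfl, Nat.lt_succ_self n, ?_⟩
    exact Nat.le_zero.1 (hG g hg n)
  | succ K ih =>
    intro G hG hcard
    let cd : (ℕ → ℕ) → Cantor := fun g k => decide (g k = K + 1)
    have hA : IsMeagre (cd '' G) := by
      by_contra hcon
      have h1 : non meagerIdeal ≤ #(cd '' G) := csInf_le' ⟨cd '' G, hcon, rfl⟩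
      exact absurd (h1.trans Cardinal.mk_image_le) (not_le.2 hcard)
    obtain ⟨j, x, hj, hj0, hjx⟩ := meagre_char hA
    let P : (ℕ → ℕ) → ℕ → Prop := fun g n => ∃ k, j n ≤ k ∧ k < j (n + 1) ∧ x k = true ∧ g k ≤ K
    let t : (ℕ → ℕ) → ℕ → ℕ := fun g n => if h : P g n then g h.choose else 0
    have ht : ∀ g n, t g n ≤ K := by
      intro g n
      simp only [t]
      split_ifs with h
      · exact h.choose_spec.2.2.2
      · exact Nat.zero_le _
    obtain ⟨j', c, hj', hj'0, hc⟩ := ih (t '' G) (by rintro _ ⟨g, _, rfl⟩; exact ht g)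
      (lt_of_le_of_lt Cardinal.mk_image_le hcard)
    refine ⟨j ∘ j', fun k => if x k = false then K + 1 else c (idx j k), hj.comp hj', ?_, ?_⟩
    · simp only [Function.comp, hj'0, hj0]
    · intro g hg
      obtain ⟨N, hN⟩ := eventually_atTop.1 (hjx (cd g) ⟨g, hg, rfl⟩)
      have h2 := hc (t g) ⟨g, hg, rfl⟩
      filter_upwards [h2, eventually_ge_atTop N] with m hm hmN
      obtain ⟨n, hn1, hn2, hn3⟩ := hm
      have hnN : N ≤ n := hmN.trans (hj'.le_apply.trans hn1)
      obtain ⟨k, hk1, hk2, hk3⟩ := hN n hnN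
      have hlo : ∀ k, j n ≤ k → (j ∘ j') m ≤ k := fun k hk => (hj.monotone hn1).trans hk
      have hhi : ∀ k, k < j (n + 1) → k < (j ∘ j') (m + 1) := fun k hk =>
        lt_of_lt_of_le hk (hj.monotone hn2)
      cases hxk : x k with
      | false =>
        refine ⟨k, hlo k hk1, hhi k hk2, ?_⟩
        simp only [hxk, if_true]
        rw [hxk] at hk3
        have : cd g k = true := by
          cases h : cd g k with
          | true => rfl
          | false => exact absurd h hk3
        exact of_decide_eq_true this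
      | true =>
        rw [hxk] at hk3
        have h3 : ¬ g k = K + 1 := by
          intro h
          exact hk3 (decide_eq_true h)
        have h4 := hG g hg k
        have hP : P g n := ⟨k, hk1, hk2, hxk, by omega⟩
        have h5 := hP.choose_spec
        refine ⟨hP.choose, hlo _ h5.1, hhi _ h5.2.1, ?_⟩
        have h6 : t g n = g hP.choose := by
          simp only [t]
          rw [dif_pos hP]
        rw [← h6, hn3, h5.2.2.1]
        simp only [Bool.true_eq_false, if_false]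
        rw [idx_eq hj h5.1 h5.2.1]


/-! ### Interval partitions from increasing sequences -/

/-- The `n`-th interval of the sequence `j`. -/
def blocks (j : ℕ → ℕ) (n : ℕ) : Finset ℕ := Finset.Ico (j n) (j (n + 1))

theorem blocks_partition (j : ℕ → ℕ) (hj : StrictMono j) (h0 : j 0 = 0) :
    IsIntervalPartition (blocks j) where
  nonempty n := by
    rw [blocks, Finset.nonempty_Ico]
    exact hj (Nat.lt_succ_self n)
  interval n i hi k hk l hil hlk := by
    rw [blocks, Finset.mem_Ico] at *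
    omega
  disjoint m n hmn := by
    have key : ∀ m n, m < n → Disjoint (blocks j m) (blocks j n) := by
      intro m n hmn
      rw [Finset.disjoint_left]
      intro a ha ha'
      rw [blocks, Finset.mem_Ico] at ha ha'
      have := hj.monotone (Nat.succ_le_of_lt hmn)
      simp only [Nat.succ_eq_add_one] at this
      omega
    rcases lt_or_gt_of_ne hmn with h | h
    · exact key m n h
    · exact (key n m h).symm
  cover k := by
    have hex : ∃ n, k < j (n + 1) := ⟨k, lt_of_lt_of_le (Nat.lt_succ_self k) (hj.le_apply)⟩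
    classical
    refine ⟨Nat.find hex, ?_⟩
    rw [blocks, Finset.mem_Ico]
    refine ⟨?_, Nat.find_spec hex⟩
    rcases Nat.eq_zero_or_pos (Nat.find hex) with h | h
    · rw [h, h0]; exact Nat.zero_le _
    · have := Nat.find_min hex (Nat.sub_lt h Nat.one_pos)
      rw [Nat.sub_add_cancel h] at this
      exact not_lt.1 this

/-- Almost all blocks of an interval partition lie beyond a given point. -/
theorem IsIntervalPartition.eventually_ge {J : ℕ → Finset ℕ} (hJ : IsIntervalPartition J)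
    (N : ℕ) : ∀ᶠ n in atTop, ∀ k ∈ J n, N ≤ k := by
  classical
  choose c hc using hJ.cover
  have hfin : ∀ k < N, ∀ᶠ n in atTop, k ∉ J n := by
    intro k _
    refine eventually_atTop.2 ⟨c k + 1, fun n hn hk => ?_⟩
    have hne : c k ≠ n := by omega
    exact (Finset.disjoint_left.1 (hJ.disjoint _ _ hne)) (hc k) hk
  have h2 : ∀ᶠ n in atTop, ∀ k ∈ Finset.range N, k ∉ J n := by
    rw [Filter.eventually_all_finset]
    intro k hk
    exact hfin k (Finset.mem_range.1 hk)
  refine h2.mono fun n hn k hk => ?_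
  by_contra hcon
  exact hn k (Finset.mem_range.2 (not_le.1 hcon)) hk

/-- A function matched by `(J, h)` agrees with `h` infinitely often. -/
theorem Matches.frequently {b : ℕ → ℕ} {f h : ∀ n, Fin (b n)} {J : ℕ → Finset ℕ}
    (hJ : IsIntervalPartition J) (hf : Matches f J h) : ∃ᶠ n in atTop, f n = h n := by
  rw [frequently_atTop]
  intro N
  obtain ⟨n, hn1, hn2⟩ := (hf.and (hJ.eventually_ge N)).exists
  obtain ⟨k, hk, hkf⟩ := hn1
  exact ⟨k, hn2 k hk, hkf⟩

section main

variable {b : ℕ → ℕ} (hb : ∀ n, 2 ≤ b n)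

include hb

/-- Another value. -/
def other (h : ∀ n, Fin (b n)) (n : ℕ) : Fin (b n) :=
  if (h n : ℕ) = 0 then ⟨1, by have := hb n; omega⟩ else ⟨0, by have := hb n; omega⟩

theorem other_ne (h : ∀ n, Fin (b n)) (n : ℕ) : other hb h n ≠ h n := by
  intro hcon
  have h1 := congrArg Fin.val hcon
  unfold other at h1
  split_ifs at h1 with h2
  · simp only at h1; omega
  · simp only at h1; omega

theorem e_univ : ¬ ∃ h : ∀ n, Fin (b n), ∀ f ∈ (Set.univ : Set (∀ n, Fin (b n))),
    ∃ᶠ n in atTop, f n = h n := by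
  rintro ⟨h, hh⟩
  obtain ⟨n, hn⟩ := (hh (other hb h) (Set.mem_univ _)).exists
  exact other_ne hb h n hn

theorem beq_univ : ¬ ∃ (J : ℕ → Finset ℕ) (h : ∀ n, Fin (b n)), IsIntervalPartition J ∧
    ∀ f ∈ (Set.univ : Set (∀ n, Fin (b n))), Matches f J h := by
  rintro ⟨J, h, hJ, hh⟩
  exact e_univ hb ⟨h, fun f hf => (hh f hf).frequently hJ⟩

theorem eNum_mem : ∃ F : Set (∀ n, Fin (b n)),
    (¬ ∃ h : ∀ n, Fin (b n), ∀ f ∈ F, ∃ᶠ n in atTop, f n = h n) ∧ eNum b = #F :=
  csInf_mem (s := {κ | ∃ F : Set (∀ n, Fin (b n)),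
    (¬ ∃ h : ∀ n, Fin (b n), ∀ f ∈ F, ∃ᶠ n in atTop, f n = h n) ∧ κ = #F})
    ⟨_, Set.univ, e_univ hb, rfl⟩

theorem bEq_mem : ∃ F : Set (∀ n, Fin (b n)),
    (¬ ∃ (J : ℕ → Finset ℕ) (h : ∀ n, Fin (b n)), IsIntervalPartition J ∧
      ∀ f ∈ F, Matches f J h) ∧ bEq b = #F :=
  csInf_mem (s := {κ | ∃ F : Set (∀ n, Fin (b n)),
    (¬ ∃ (J : ℕ → Finset ℕ) (h : ∀ n, Fin (b n)), IsIntervalPartition J ∧
      ∀ f ∈ F, Matches f J h) ∧ κ = #F})
    ⟨_, Set.univ, beq_univ hb, rfl⟩

/-- `𝔟_b^eq ≤ e_b`. -/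
theorem bEq_le_eNum : bEq b ≤ eNum b := by
  obtain ⟨F, hF, hcard⟩ := eNum_mem hb
  rw [hcard]
  apply csInf_le'
  refine ⟨F, ?_, rfl⟩
  rintro ⟨J, h, hJ, hh⟩
  exact hF ⟨h, fun f hf => (hh f hf).frequently hJ⟩

omit hb in
/-- The end points attached to `g`. -/
def ends (g : ℕ → ℕ) : ℕ → ℕ
  | 0 => 0
  | n + 1 => max (ends g n) (g (ends g n)) + 1

omit hb in
theorem ends_strictMono (g : ℕ → ℕ) : StrictMono (ends g) := by
  apply strictMono_nat_of_lt_succ
  intro n
  show ends g n < max (ends g n) (g (ends g n)) + 1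
  exact Nat.lt_succ_of_le (le_max_left _ _)

omit hb in
theorem exists_match (F : Set (∀ n, Fin (b n))) (h : ∀ n, Fin (b n))
    (hh : ∀ f ∈ F, ∃ᶠ n in atTop, f n = h n) (hF' : #F < bNum) :
    ∃ J : ℕ → Finset ℕ, IsIntervalPartition J ∧ ∀ f ∈ F, Matches f J h := by
  classical
  have hgap : ∀ f ∈ F, ∀ n, ∃ k, n ≤ k ∧ f k = h k := by
    intro f hf n
    obtain ⟨k, hk, hk'⟩ := (frequently_atTop.1 (hh f hf)) n
    exact ⟨k, hk, hk'⟩
  let gap : F → (ℕ → ℕ) := fun f n => Nat.find (hgap f.1 f.2 n)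
  have hbdd : ∃ g : ℕ → ℕ, ∀ u ∈ Set.range gap, ∀ᶠ n in atTop, u n ≤ g n := by
    by_contra hcon
    have h1 : bNum ≤ #(Set.range gap) := csInf_le' ⟨Set.range gap, hcon, rfl⟩
    exact absurd (h1.trans Cardinal.mk_range_le) (not_le.2 hF')
  obtain ⟨g, hg⟩ := hbdd
  refine ⟨blocks (ends g), blocks_partition _ (ends_strictMono g) rfl, ?_⟩
  intro f hf
  have h2 := hg (gap ⟨f, hf⟩) ⟨_, rfl⟩
  have h3 : ∀ᶠ n in atTop, gap ⟨f, hf⟩ (ends g n) ≤ g (ends g n) :=
    (ends_strictMono g).tendsto_atTop.eventually h2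
  refine h3.mono fun n hn => ?_
  have hspec := Nat.find_spec (hgap f hf (ends g n))
  refine ⟨gap ⟨f, hf⟩ (ends g n), ?_, hspec.2⟩
  rw [blocks, Finset.mem_Ico]
  refine ⟨hspec.1, ?_⟩
  show gap ⟨f, hf⟩ (ends g n) < max (ends g n) (g (ends g n)) + 1
  exact Nat.lt_succ_of_le (hn.trans (le_max_right _ _))

/-- `min {𝔟, e_b} ≤ 𝔟_b^eq`. -/
theorem min_le_bEq : min bNum (eNum b) ≤ bEq b := by
  obtain ⟨F, hF, hcard⟩ := bEq_mem hb
  by_contra hcon
  rw [not_le, hcard] at hcon
  have h1 : #F < bNum := lt_of_lt_of_le hcon (min_le_left _ _)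
  have h2 : #F < eNum b := lt_of_lt_of_le hcon (min_le_right _ _)
  have h3 : ∃ h : ∀ n, Fin (b n), ∀ f ∈ F, ∃ᶠ n in atTop, f n = h n := by
    by_contra hc
    have : eNum b ≤ #F := csInf_le' ⟨F, hc, rfl⟩
    exact absurd this (not_le.2 h2)
  obtain ⟨h, hh⟩ := h3
  obtain ⟨J, hJ, hJF⟩ := exists_match F h hh h1
  exact hF ⟨J, h, hJ, hJF⟩

/-! ### Decoding a point of `∏ b` from a point of `2^ω` -/

/-- The decoded function. -/
noncomputable def decode (x : Cantor) (k : ℕ) : Fin (b k) :=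
  open Classical in
  if h : ∃ i : Fin (b k), x (Nat.pair k i) = true ∧
      ∀ i' : Fin (b k), x (Nat.pair k i') = true → i' = i
  then h.choose else ⟨0, by have := hb k; omega⟩

theorem decode_eq (x : Cantor) (k : ℕ) (v : Fin (b k))
    (hx : ∀ i : Fin (b k), x (Nat.pair k i) = true ↔ i = v) : decode hb x k = v := by
  have h : ∃ i : Fin (b k), x (Nat.pair k i) = true ∧
      ∀ i' : Fin (b k), x (Nat.pair k i') = true → i' = i :=
    ⟨v, (hx v).2 rfl, fun i' hi' => (hx i').1 hi'⟩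
  unfold decode
  rw [dif_pos h]
  exact (hx _).1 h.choose_spec.1

/-- The point which agrees with `x` before `n` and decodes to `g` from `n` on. -/
def splice (x : Cantor) (n : ℕ) (g : ∀ n, Fin (b n)) : Cantor :=
  fun i => if i < n then x i else decide ((Nat.unpair i).2 = (g (Nat.unpair i).1 : ℕ))

omit hb in
theorem splice_lt (x : Cantor) (n : ℕ) (g : ∀ n, Fin (b n)) {i : ℕ} (hi : i < n) :
    splice x n g i = x i := by
  simp only [splice, hi, if_true]

theorem decode_splice (x : Cantor) (n : ℕ) (g : ∀ n, Fin (b n)) {k : ℕ} (hk : n ≤ k)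
    (w : Cantor) (hw : ∀ i < Nat.pair k (b k), w i = splice x n g i) : decode hb w k = g k := by
  apply decode_eq
  intro i
  have h1 : Nat.pair k i < Nat.pair k (b k) := Nat.pair_lt_pair_right _ i.2
  have h2 : ¬ Nat.pair k i < n := by
    have := Nat.left_le_pair k i
    omega
  have h3 : ∀ k', k' = k → (g k' : ℕ) = g k := by
    rintro _ rfl
    rfl
  have h4 := h3 (Nat.unpair (Nat.pair k i)).1 (by rw [Nat.unpair_pair])
  rw [hw _ h1]
  simp only [splice, h2, if_false, decide_eq_true_eq]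
  rw [h4, Nat.unpair_pair]
  exact ⟨fun h => Fin.ext h, fun h => by rw [h]⟩

/-- If every finite piece can be extended so as to leave `S`, then `S` is nowhere dense. -/
theorem nwd_of {S : Set Cantor} (h : ∀ n, ∃ (g : ∀ n, Fin (b n)) (K : Finset ℕ),
    (∀ k ∈ K, n ≤ k) ∧ ∀ w : Cantor, (∀ k ∈ K, decode hb w k = g k) → w ∉ S) :
    IsNowhereDense S := by
  unfold IsNowhereDense
  by_contra hne
  obtain ⟨x, hx⟩ := Set.nonempty_iff_ne_empty.2 hne
  have hbasis := PiNat.isTopologicalBasis_cylinders (E := fun _ : ℕ => Bool)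
  obtain ⟨U, ⟨z, n, rfl⟩, hxU, hU⟩ := hbasis.exists_subset_of_mem_open hx isOpen_interior
  obtain ⟨g, K, hK, hKS⟩ := h n
  set y : Cantor := splice x n g with hy
  have hyU : y ∈ PiNat.cylinder z n := by
    rw [PiNat.mem_cylinder_iff] at hxU ⊢
    intro i hi
    rw [hy, splice_lt x n g hi]
    exact hxU i hi
  have hycl : y ∈ closure S := interior_subset (hU hyU)
  rw [mem_closure_iff] at hycl
  obtain ⟨w, hwV, hwS⟩ := hycl (PiNat.cylinder y (K.sup fun k => Nat.pair k (b k)))
    (PiNat.isOpen_cylinder _ _ _) (PiNat.self_mem_cylinder _ _)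
  rw [PiNat.mem_cylinder_iff] at hwV
  apply hKS w _ hwS
  intro k hk
  apply decode_splice hb x n g (hK k hk)
  intro i hi
  exact hwV i (lt_of_lt_of_le hi (Finset.le_sup (f := fun k => Nat.pair k (b k)) hk))

theorem meagre_e (f : ∀ n, Fin (b n)) :
    IsMeagre {x : Cantor | ∀ᶠ k in atTop, decode hb x k ≠ f k} := by
  have : {x : Cantor | ∀ᶠ k in atTop, decode hb x k ≠ f k} =
      ⋃ m : ℕ, {x : Cantor | ∀ k, m ≤ k → decode hb x k ≠ f k} := by
    ext x
    simp only [Set.mem_ofPred_eq, Set.mem_iUnion, eventually_atTop]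
  rw [this]
  refine isMeagre_iUnion fun m => (nwd_of hb fun n => ?_).isMeagre
  refine ⟨f, {max m n}, ?_, ?_⟩
  · intro k hk
    rw [Finset.mem_singleton.1 hk]
    exact le_max_right _ _
  · intro w hw hwS
    exact hwS (max m n) (le_max_left _ _) (hw _ (Finset.mem_singleton_self _))

/-- `cov(ℳ) ≤ e_b`. -/
theorem cov_le_eNum : cov meagerIdeal ≤ eNum b := by
  obtain ⟨F, hF, hcard⟩ := eNum_mem hb
  rw [hcard]
  by_contra hcon
  rw [not_le] at hcon
  apply hF
  let B : (∀ n, Fin (b n)) → Set Cantor :=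
    fun f => {x : Cantor | ∀ᶠ k in atTop, decode hb x k ≠ f k}
  have hnot : ⋃₀ (B '' F) ≠ Set.univ := by
    intro huniv
    have h1 : cov meagerIdeal ≤ #(B '' F) := by
      apply csInf_le'
      refine ⟨B '' F, ?_, huniv, rfl⟩
      rintro _ ⟨f, _, rfl⟩
      exact meagre_e hb f
    exact absurd (h1.trans Cardinal.mk_image_le) (not_le.2 hcon)
  obtain ⟨x, hx⟩ := (Set.ne_univ_iff_exists_notMem _).1 hnot
  refine ⟨decode hb x, fun f hf => ?_⟩
  have h2 : x ∉ B f := fun hxf => hx ⟨B f, ⟨f, hf, rfl⟩, hxf⟩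
  have h3 : ¬ ∀ᶠ k in atTop, decode hb x k ≠ f k := h2
  rw [Filter.not_eventually] at h3
  exact h3.mono fun k hk => (not_not.1 hk).symm

theorem meagre_match (J : ℕ → Finset ℕ) (hJ : IsIntervalPartition J) (h : ∀ n, Fin (b n)) :
    IsMeagre {x : Cantor | Matches (decode hb x) J h} := by
  have : {x : Cantor | Matches (decode hb x) J h} =
      ⋃ m : ℕ, {x : Cantor | ∀ n, m ≤ n → ∃ k ∈ J n, decode hb x k = h k} := by
    ext x
    simp only [Matches, Set.mem_ofPred_eq, Set.mem_iUnion, eventually_atTop]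
  rw [this]
  refine isMeagre_iUnion fun m => (nwd_of hb fun n => ?_).isMeagre
  obtain ⟨l, hl1, hl2⟩ := ((hJ.eventually_ge n).and (eventually_ge_atTop m)).exists
  refine ⟨other hb h, J l, hl1, ?_⟩
  intro w hw hwS
  obtain ⟨k, hk, hk'⟩ := hwS l hl2
  rw [hw k hk] at hk'
  exact other_ne hb h k hk'

/-- `𝔟_b^eq ≤ non(ℳ)`. -/
theorem bEq_le_non : bEq b ≤ non meagerIdeal := by
  have hmem : ∃ A : Set Cantor, A ∉ meagerIdeal ∧ non meagerIdeal = #A :=
    csInf_mem (s := {κ | ∃ A : Set Cantor, A ∉ meagerIdeal ∧ κ = #A})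
      ⟨_, Set.univ, (not_isMeagre_of_isOpen isOpen_univ Set.univ_nonempty), rfl⟩
  obtain ⟨A, hA, hcard⟩ := hmem
  rw [hcard]
  refine le_trans (csInf_le' ⟨decode hb '' A, ?_, rfl⟩) Cardinal.mk_image_le
  rintro ⟨J, h, hJ, hh⟩
  apply hA
  exact (meagre_match hb J hJ h).mono fun x hx => hh _ ⟨x, hx, rfl⟩

/-! ### Cardinalities -/

omit hb in
theorem bNum_le : bNum ≤ 𝔠 := by
  have h1 : bNum ≤ #(Set.univ : Set (ℕ → ℕ)) := by
    apply csInf_le'
    refine ⟨Set.univ, ?_, rfl⟩
    rintro ⟨g, hg⟩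
    obtain ⟨n, hn⟩ := (hg (fun n => g n + 1) (Set.mem_univ _)).exists
    omega
  refine h1.trans ?_
  rw [Cardinal.mk_univ]
  simp

theorem eNum_le : eNum b ≤ 𝔠 := by
  have h1 : eNum b ≤ #(Set.univ : Set (∀ n, Fin (b n))) := csInf_le' ⟨Set.univ, e_univ hb, rfl⟩
  refine h1.trans ?_
  rw [Cardinal.mk_univ]
  have h2 : #(∀ n, Fin (b n)) ≤ #(ℕ → ℕ) := by
    refine Cardinal.mk_le_of_injective (f := fun (f : ∀ n, Fin (b n)) (n : ℕ) => (f n : ℕ)) ?_
    intro f g hfg
    funext n
    exact Fin.ext (congrFun hfg n)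
  refine h2.trans ?_
  simp

omit hb in
/-- Among finitely many different points of `2^ω` all restrictions to `m` are different, for
large `m`. -/
theorem restr_injective {K : ℕ} (x : Fin K → Cantor) (hx : Function.Injective x) :
    ∃ m₀ : ℕ, ∀ m, m₀ ≤ m → Function.Injective fun l : Fin K => fun i : Fin m => x l i := by
  classical
  have h1 : ∀ p : Fin K × Fin K, p.1 ≠ p.2 → ∃ k, x p.1 k ≠ x p.2 k := by
    intro p hp
    by_contra hcon
    push Not at hcon
    exact hp (hx (funext hcon))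
  let c : Fin K × Fin K → ℕ := fun p => if h : p.1 ≠ p.2 then (h1 p h).choose else 0
  refine ⟨Finset.univ.sup c + 1, fun m hm l l' hll => ?_⟩
  by_contra hne
  have h2 := (h1 (l, l') hne).choose_spec
  have h3 : c (l, l') = (h1 (l, l') hne).choose := by
    simp only [c]
    rw [dif_pos hne]
  rw [← h3] at h2
  have h4 : c (l, l') < m := by
    have := Finset.le_sup (f := c) (Finset.mem_univ (l, l'))
    omega
  exact h2 (congrFun hll ⟨c (l, l'), h4⟩)

/-- If `b` takes values below `K` infinitely often, then `e_b` is the continuum. -/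
theorem continuum_le_eNum {K : ℕ} (s : ℕ → ℕ) (hs : StrictMono s) (hsb : ∀ i, b (s i) < K) :
    𝔠 ≤ eNum b := by
  classical
  have hK : 0 < K := lt_of_le_of_lt (Nat.zero_le _) (hsb 0)
  have hne : Nonempty (Σ m : ℕ, (Fin m → Bool) → Fin K) := ⟨⟨0, fun _ => ⟨0, hK⟩⟩⟩
  obtain ⟨code, hcode⟩ := exists_surjective_nat (Σ m : ℕ, (Fin m → Bool) → Fin K)
  let r : ℕ → ℕ := Function.invFun s
  have hr : ∀ i, r (s i) = i := Function.leftInverse_invFun hs.injective
  -- the family of functions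
  let H : Cantor → ∀ n, Fin (b n) := fun x n =>
    if h : ((code (r n)).2 (fun l => x l) : ℕ) < b n then ⟨_, h⟩
    else ⟨0, by have := hb n; omega⟩
  have hH : ∀ (x : Cantor) (i : ℕ) (m : ℕ) (φ : (Fin m → Bool) → Fin K),
      code i = ⟨m, φ⟩ → (φ fun l => x l : ℕ) < b (s i) →
      (H x (s i) : ℕ) = (φ fun l => x l : ℕ) := by
    intro x i m φ hi hlt
    have h1 : ((code (r (s i))).2 (fun l => x l) : ℕ) = (φ fun l => x l : ℕ) := by
      rw [hr, hi]
    simp only [H]
    rw [dif_pos (by rw [h1]; exact hlt)]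
    exact h1
  let bad : (∀ n, Fin (b n)) → Set Cantor := fun f => {x | ¬ ∃ᶠ n in atTop, f n = H x n}
  have hbad : ∀ f, (bad f).Finite := by
    intro f
    by_contra hinf
    let emb := Set.Infinite.natEmbedding _ hinf
    let x : Fin K → Cantor := fun l => (emb l : Cantor)
    have hx : Function.Injective x := by
      intro l l' hll
      have h1 : (emb l) = emb l' := Subtype.ext hll
      exact Fin.ext (emb.injective h1)
    have hxb : ∀ l, ∀ᶠ n in atTop, f n ≠ H (x l) n := by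
      intro l
      have h1 : ¬ ∃ᶠ n in atTop, f n = H (x l) n := (emb l).2
      rwa [Filter.not_frequently] at h1
    have hall : ∀ᶠ n in atTop, ∀ l, f n ≠ H (x l) n := by
      rw [Filter.eventually_all]
      exact hxb
    obtain ⟨N, hN⟩ := eventually_atTop.1 hall
    obtain ⟨m₀, hm₀⟩ := restr_injective x hx
    -- the codes
    let φ : ∀ m, (Fin m → Bool) → Fin K := fun m =>
      Function.extend (fun l : Fin K => fun i : Fin m => x l i) id fun _ => ⟨0, hK⟩
    have hφ : ∀ m, m₀ ≤ m → ∀ l, φ m (fun i => x l i) = l := by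
      intro m hm l
      exact (hm₀ m hm).extend_apply id _ l
    choose i hi using fun m => hcode ⟨m, φ m⟩
    have hinj : Function.Injective fun m => i (m₀ + m) := by
      intro m m' hmm
      have h1 := hi (m₀ + m)
      have h2 := hi (m₀ + m')
      have h3 : i (m₀ + m) = i (m₀ + m') := hmm
      rw [h3, h2] at h1
      have h4 := congrArg Sigma.fst h1
      simp only at h4
      omega
    obtain ⟨_, ⟨m, rfl⟩, hm⟩ := (Set.infinite_range_of_injective hinj).exists_gt N
    simp only at hm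
    set i₁ := i (m₀ + m) with hi₁
    have hsi : N ≤ s i₁ := hm.le.trans hs.le_apply
    have hfv : (f (s i₁) : ℕ) < K := (f (s i₁)).2.trans (hsb i₁)
    apply hN (s i₁) hsi ⟨f (s i₁), hfv⟩
    have h5 := hφ (m₀ + m) (Nat.le_add_right _ _) ⟨f (s i₁), hfv⟩
    apply Fin.ext
    have h6 := hH (x ⟨f (s i₁), hfv⟩) i₁ (m₀ + m) (φ (m₀ + m)) (hi _)
    rw [h5] at h6
    exact (h6 (f (s i₁)).2).symm
  obtain ⟨F, hF, hcard⟩ := eNum_mem hb
  rw [hcard]
  by_contra hcon
  rw [not_le] at hcon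
  have hcover : (Set.univ : Set Cantor) ⊆ ⋃ f : F, bad f.1 := by
    intro x _
    by_contra hx
    apply hF
    refine ⟨H x, fun f hf => ?_⟩
    by_contra hc
    exact hx (Set.mem_iUnion.2 ⟨⟨f, hf⟩, hc⟩)
  have h1 : (𝔠 : Cardinal.{0}) = #(Set.univ : Set Cantor) := by
    rw [Cardinal.mk_univ]
    simp
  have h2 : #(⋃ f : F, bad f.1) ≤ #F * ⨆ f : F, #(bad f.1) := Cardinal.mk_iUnion_le _
  have h3 : (⨆ f : F, #(bad f.1)) ≤ ℵ₀ := by
    apply ciSup_le'
    intro f
    exact (hbad f.1).lt_aleph0.le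
  have h4 : #F * ℵ₀ < 𝔠 :=
    Cardinal.mul_lt_of_lt Cardinal.aleph0_le_continuum hcon Cardinal.aleph0_lt_continuum
  have h5 : (𝔠 : Cardinal.{0}) ≤ #F * ℵ₀ := by
    rw [h1]
    exact (Cardinal.mk_le_mk_of_subset hcover).trans (h2.trans (mul_le_mul_right h3 _))
  exact absurd h5 (not_le.2 h4)

/-- If `b` takes values below `K` infinitely often, then `non(ℳ) ≤ 𝔟_b^eq`. -/
theorem non_le_bEq {K : ℕ} (s : ℕ → ℕ) (hs : StrictMono s) (hsb : ∀ i, b (s i) < K) :
    non meagerIdeal ≤ bEq b := by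
  classical
  obtain ⟨F, hF, hcard⟩ := bEq_mem hb
  rw [hcard]
  by_contra hcon
  rw [not_le] at hcon
  apply hF
  let G : Set (ℕ → ℕ) := (fun (f : ∀ n, Fin (b n)) (i : ℕ) => (f (s i) : ℕ)) '' F
  obtain ⟨j, h, hj, hj0, hjh⟩ := bounded_match K G (by
    rintro _ ⟨f, _, rfl⟩ i
    exact ((f (s i)).2.trans (hsb i)).le) (lt_of_le_of_lt Cardinal.mk_image_le hcon)
  let r : ℕ → ℕ := Function.invFun s
  have hr : ∀ i, r (s i) = i := Function.leftInverse_invFun hs.injective
  let h' : ∀ n, Fin (b n) := fun n =>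
    if hn : h (r n) < b n then ⟨_, hn⟩ else ⟨0, by have := hb n; omega⟩
  let p : ℕ → ℕ := fun n => if n = 0 then 0 else s (j n)
  have hp : StrictMono p := by
    apply strictMono_nat_of_lt_succ
    intro n
    simp only [p, Nat.succ_ne_zero, if_false]
    split_ifs with h0
    · have h1 : n + 1 ≤ j (n + 1) := hj.le_apply
      have h2 : j (n + 1) ≤ s (j (n + 1)) := hs.le_apply
      omega
    · exact hs (hj (Nat.lt_succ_self n))
  refine ⟨blocks p, h', blocks_partition p hp (by simp [p]), ?_⟩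
  intro f hf
  have h1 := hjh _ ⟨f, hf, rfl⟩
  filter_upwards [h1, eventually_ge_atTop 1] with n hn hn1
  obtain ⟨i, hi1, hi2, hi3⟩ := hn
  refine ⟨s i, ?_, ?_⟩
  · rw [blocks, Finset.mem_Ico]
    have h0 : ¬ n = 0 := by omega
    simp only [p, h0, Nat.succ_ne_zero, if_false]
    exact ⟨hs.monotone hi1, hs hi2⟩
  · apply Fin.ext
    have h2 : h (r (s i)) = f (s i) := by rw [hr, hi3]
    simp only [h']
    rw [dif_pos (by rw [h2]; exact (f (s i)).2)]
    exact h2.symm

end main

/-! ### Measure -/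

theorem half_apply (v : Bool) : (PMF.uniformOfFintype Bool).toMeasure {v} = 2⁻¹ := by
  rw [PMF.toMeasure_apply_singleton _ _ (measurableSet_singleton v),
    PMF.uniformOfFintype_apply]
  simp

theorem initial_measure (L : ℕ) (u : ℕ → Bool) :
    (Measure.infinitePi fun _ : ℕ => (PMF.uniformOfFintype Bool).toMeasure)
      {x : ℕ → Bool | ∀ i < L, x i = u i} = 2⁻¹ ^ L := by
  have h1 : {x : ℕ → Bool | ∀ i < L, x i = u i} =
      Set.pi (Finset.range L : Set ℕ) (fun i => {u i}) := by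
    ext x
    simp
  rw [h1, Measure.infinitePi_pi _ (fun i _ => measurableSet_singleton _)]
  simp only [half_apply]
  simp

/-- Independent decoding. -/
noncomputable def dec {b : ℕ → ℕ} {L : ℕ → ℕ} (e : ∀ k, (Fin (L k) → Bool) → Fin (b k))
    (x : Cantor) (k : ℕ) : Fin (b k) := e k fun i => x (Nat.pair k i)

theorem map_dec {b : ℕ → ℕ} {L : ℕ → ℕ} (e : ∀ k, (Fin (L k) → Bool) → Fin (b k)) :
    Measurable (dec e) ∧ coin.map (dec e) = Measure.infinitePi fun k =>
      (Measure.infinitePi fun _ : ℕ => (PMF.uniformOfFintype Bool).toMeasure).map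
        (fun z : ℕ → Bool => e k fun i => z i) := by
  have hm : ∀ k, Measurable (fun z : ℕ → Bool => e k fun i => z i) := by
    intro k
    exact (measurable_of_countable (e k)).comp (measurable_pi_lambda _ fun i => measurable_pi_apply _)
  have hmd : Measurable (dec e) := by
    apply measurable_pi_lambda
    intro k
    exact (measurable_of_countable (e k)).comp (measurable_pi_lambda _ fun i => measurable_pi_apply _)
  refine ⟨hmd, ?_⟩
  rw [← Measure.infinitePi_map_pi _ hm, ← Measure.infinitePi_map_curry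
    (fun _ : ℕ => fun _ : ℕ => (PMF.uniformOfFintype Bool).toMeasure),
    ← Measure.infinitePi_map_piCongrLeft (X := fun _ : ℕ × ℕ => Bool)
      (fun _ : ℕ × ℕ => (PMF.uniformOfFintype Bool).toMeasure) Nat.pairEquiv.symm,
    Measure.map_map (by fun_prop) (by fun_prop), Measure.map_map (by fun_prop) (by fun_prop)]
  have h1 : dec e = ((fun (x : ℕ → ℕ → Bool) (i : ℕ) => e i fun l => x i l) ∘
      ⇑(MeasurableEquiv.curry ℕ ℕ Bool)) ∘
        ⇑(MeasurableEquiv.piCongrLeft (fun _ => Bool) Nat.pairEquiv.symm) := by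
    funext x k
    show e k _ = e k _
    congr 1
    funext i
    show x (Nat.pair k i) = MeasurableEquiv.piCongrLeft (fun _ => Bool) Nat.pairEquiv.symm x (k, (i : ℕ))
    have h2 : ((k, (i : ℕ)) : ℕ × ℕ) = Nat.pairEquiv.symm (Nat.pair k i) := by
      simp [Nat.pairEquiv]
    rw [h2, MeasurableEquiv.coe_piCongrLeft, Equiv.piCongrLeft_apply_apply]
  rw [← h1]
  rfl

theorem half_pow (L : ℕ) : (2⁻¹ : ℝ≥0∞) ^ L = ENNReal.ofReal ((1 / 2) ^ L) := by
  rw [ENNReal.ofReal_pow (by norm_num)]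
  congr 1
  rw [one_div, ENNReal.ofReal_inv_of_pos (by norm_num)]
  norm_num

theorem no_match_le {b : ℕ → ℕ} {L : ℕ → ℕ} (e : ∀ k, (Fin (L k) → Bool) → Fin (b k))
    (he : ∀ k, Function.Surjective (e k)) (f : ∀ k, Fin (b k)) (J : Finset ℕ) :
    coin {x | ∀ k ∈ J, dec e x k ≠ f k} ≤
      ENNReal.ofReal (Real.exp (-∑ k ∈ J, (1 / 2 : ℝ) ^ L k)) := by
  obtain ⟨hm, hmap⟩ := map_dec e
  have hS : MeasurableSet (Set.pi (J : Set ℕ) fun k => ({f k}ᶜ : Set (Fin (b k)))) :=
    MeasurableSet.pi J.countable_toSet fun k _ => (measurableSet_singleton _).compl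
  have h1 : {x | ∀ k ∈ J, dec e x k ≠ f k} =
      dec e ⁻¹' (Set.pi (J : Set ℕ) fun k => ({f k}ᶜ : Set (Fin (b k)))) := by
    ext x
    simp
  have hmk : ∀ k, Measurable (fun z : ℕ → Bool => e k fun i => z i) := by
    intro k
    exact (measurable_of_countable (e k)).comp
      (measurable_pi_lambda _ fun i => measurable_pi_apply _)
  have hprob : ∀ k, IsProbabilityMeasure
      ((Measure.infinitePi fun _ : ℕ => (PMF.uniformOfFintype Bool).toMeasure).map
        (fun z : ℕ → Bool => e k fun i => z i)) := fun k =>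
    Measure.isProbabilityMeasure_map (hmk k).aemeasurable
  rw [h1, ← Measure.map_apply hm hS, hmap,
    Measure.infinitePi_pi _ (fun k _ => (measurableSet_singleton _).compl)]
  have h2 : ∀ k, ((Measure.infinitePi fun _ : ℕ => (PMF.uniformOfFintype Bool).toMeasure).map
        (fun z : ℕ → Bool => e k fun i => z i)) ({f k}ᶜ) ≤
      ENNReal.ofReal (Real.exp (-(1 / 2 : ℝ) ^ L k)) := by
    intro k
    rw [prob_compl_eq_one_sub (measurableSet_singleton _),
      Measure.map_apply (hmk k) (measurableSet_singleton _)]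
    obtain ⟨u, hu⟩ := he k (f k)
    have h3 : (2⁻¹ : ℝ≥0∞) ^ L k ≤
        (Measure.infinitePi fun _ : ℕ => (PMF.uniformOfFintype Bool).toMeasure)
          ((fun z : ℕ → Bool => e k fun i => z i) ⁻¹' {f k}) := by
      rw [← initial_measure (L k) (fun i => if h : i < L k then u ⟨i, h⟩ else false)]
      apply measure_mono
      intro z hz
      show e k (fun i => z i) = f k
      rw [← hu]
      congr 1
      funext i
      have := hz i i.2
      simp only [i.2, dif_pos] at this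
      exact this
    calc _ ≤ 1 - (2⁻¹ : ℝ≥0∞) ^ L k := tsub_le_tsub_left h3 1
      _ = ENNReal.ofReal (1 - (1 / 2) ^ L k) := by
        rw [half_pow, ENNReal.ofReal_sub _ (by positivity), ENNReal.ofReal_one]
      _ ≤ _ := by
        apply ENNReal.ofReal_le_ofReal
        have := Real.add_one_le_exp (-(1 / 2 : ℝ) ^ L k)
        linarith
  refine (Finset.prod_le_prod' fun k _ => h2 k).trans ?_
  rw [← ENNReal.ofReal_prod_of_nonneg (fun k _ => (Real.exp_pos _).le), ← Real.exp_sum,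
    Finset.sum_neg_distrib]

/-- `e_b ≤ non(𝒩)` if the series of the `1 / b n` converges. -/
theorem eNum_le_non_null {b : ℕ → ℕ} (hb : ∀ n, 2 ≤ b n)
    (hs : Summable fun n => (1 : ℝ) / b n) : eNum b ≤ non nullIdeal := by
  classical
  have hmem : ∃ A : Set Cantor, A ∉ nullIdeal ∧ non nullIdeal = #A := by
    refine csInf_mem (s := {κ | ∃ A : Set Cantor, A ∉ nullIdeal ∧ κ = #A}) ⟨_, Set.univ, ?_, rfl⟩
    intro h
    have h1 : coin Set.univ = 0 := h
    have h2 : coin Set.univ = 1 := by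
      unfold coin
      exact measure_univ
    rw [h2] at h1
    exact one_ne_zero h1
  obtain ⟨A, hA, hcard⟩ := hmem
  rw [hcard]
  let L : ℕ → ℕ := fun n => Nat.log 2 (b n)
  have hL1 : ∀ n, 2 ^ L n ≤ b n := fun n =>
    Nat.pow_log_le_self 2 (by have := hb n; omega)
  have hL2 : ∀ n, b n < 2 ^ (L n + 1) := fun n => Nat.lt_pow_succ_log_self (by norm_num) _
  have hemb : ∀ n, Nonempty ((Fin (L n) → Bool) ↪ Fin (b n)) := by
    intro n
    apply Function.Embedding.nonempty_of_card_le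
    simp only [Fintype.card_pi, Fintype.card_bool, Finset.prod_const, Finset.card_univ,
      Fintype.card_fin]
    exact hL1 n
  let e : ∀ n, (Fin (L n) → Bool) ↪ Fin (b n) := fun n => (hemb n).some
  let D : Cantor → ∀ n, Fin (b n) := fun x n => e n fun i => x i
  refine le_trans (csInf_le' ⟨D '' A, ?_, rfl⟩) Cardinal.mk_image_le
  rintro ⟨h, hh⟩
  apply hA
  have hle : ∀ n, coin {x | D x n = h n} ≤ ENNReal.ofReal (2 * (1 / b n)) := by
    intro n
    have h3 : coin {x | D x n = h n} ≤ 2⁻¹ ^ L n := by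
      by_cases hu : ∃ u, e n u = h n
      · obtain ⟨u, hu⟩ := hu
        rw [← initial_measure (L n) (fun i => if h : i < L n then u ⟨i, h⟩ else false)]
        apply measure_mono
        intro x hx i hi
        have h4 : e n (fun i => x i) = e n u := by rw [hu]; exact hx
        have h5 := congrFun ((e n).injective h4) ⟨i, hi⟩
        simp only [hi, dif_pos]
        exact h5
      · have : {x | D x n = h n} = ∅ := by
          ext x
          simp only [Set.mem_ofPred_eq, Set.mem_empty_iff_false, iff_false]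
          intro hx
          exact hu ⟨_, hx⟩
        rw [this]
        simp
    refine h3.trans ?_
    rw [half_pow]
    apply ENNReal.ofReal_le_ofReal
    have h6 : (0 : ℝ) < b n := by
      have := hb n
      exact_mod_cast (by omega : 0 < b n)
    have h7 : (b n : ℝ) < 2 ^ L n * 2 := by
      have := hL2 n
      rw [pow_succ] at this
      exact_mod_cast this
    rw [one_div_pow, mul_one_div, div_le_div_iff₀ (by positivity) h6]
    linarith
  have hnull : coin {x | ∃ᶠ n in atTop, D x n = h n} = 0 := by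
    apply measure_setOfPred_frequently_eq_zero
    apply ne_top_of_le_ne_top _ (ENNReal.tsum_le_tsum hle)
    exact (hs.mul_left 2).tsum_ofReal_ne_top
  refine measure_mono_null ?_ hnull
  intro x hx
  exact hh _ ⟨x, hx, rfl⟩

/-- Blocks with large sums. -/
theorem exists_blocks {a : ℕ → ℝ} (ha : ∀ n, 0 ≤ a n) (hs : ¬ Summable a) :
    ∃ j : ℕ → ℕ, StrictMono j ∧ j 0 = 0 ∧
      ∀ n : ℕ, (n : ℝ) ≤ ∑ k ∈ Finset.Ico (j n) (j (n + 1)), a k := by
  rw [not_summable_iff_tendsto_nat_atTop_of_nonneg ha] at hs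
  have hstep : ∀ (n N : ℕ), ∃ M, N < M ∧ (n : ℝ) ≤ ∑ k ∈ Finset.Ico N M, a k := by
    intro n N
    obtain ⟨M, hM1, hM2⟩ := ((hs.eventually_ge_atTop (n + ∑ i ∈ Finset.range N, a i)).and
      (eventually_gt_atTop N)).exists
    refine ⟨M, hM2, ?_⟩
    rw [Finset.sum_Ico_eq_sub _ hM2.le]
    linarith
  choose nx h1 h2 using hstep
  let j : ℕ → ℕ := fun n => Nat.rec 0 (fun n r => nx n r) n
  have hjs : ∀ n, j (n + 1) = nx n (j n) := fun n => rfl
  refine ⟨j, ?_, rfl, fun n => ?_⟩
  · apply strictMono_nat_of_lt_succ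
    intro n
    rw [hjs]
    exact h1 n (j n)
  · rw [hjs]
    exact h2 n (j n)

/-- `cov(𝒩) ≤ 𝔟_b^eq` if the series of the `1 / b n` diverges. -/
theorem cov_null_le_bEq {b : ℕ → ℕ} (hb : ∀ n, 2 ≤ b n)
    (hs : ¬ Summable fun n => (1 : ℝ) / b n) : cov nullIdeal ≤ bEq b := by
  classical
  obtain ⟨F, hF, hcard⟩ := bEq_mem hb
  rw [hcard]
  by_contra hcon
  rw [not_le] at hcon
  apply hF
  let L : ℕ → ℕ := fun n => Nat.clog 2 (b n)
  have hL1 : ∀ n, b n ≤ 2 ^ L n := fun n => Nat.le_pow_clog (by norm_num) _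
  have hL2 : ∀ n, 2 ^ L n < 2 * b n := by
    intro n
    have h1 : 2 ^ (L n - 1) < b n := Nat.pow_pred_clog_lt_self (by norm_num) (by have := hb n; omega)
    have h2 : 0 < L n := Nat.clog_pos (by norm_num) (hb n)
    have h3 : 2 ^ L n = 2 * 2 ^ (L n - 1) := by
      rw [← pow_succ']
      congr 1
      omega
    omega
  have hsur : ∀ n, ∃ e : (Fin (L n) → Bool) → Fin (b n), Function.Surjective e := by
    intro n
    have hemb : Nonempty (Fin (b n) ↪ (Fin (L n) → Bool)) := by
      apply Function.Embedding.nonempty_of_card_le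
      simp only [Fintype.card_pi, Fintype.card_bool, Finset.prod_const, Finset.card_univ,
        Fintype.card_fin]
      exact hL1 n
    obtain ⟨g⟩ := hemb
    have : Nonempty (Fin (b n)) := ⟨⟨0, by have := hb n; omega⟩⟩
    exact ⟨Function.invFun g, Function.invFun_surjective g.injective⟩
  choose e he using hsur
  have ha : ¬ Summable fun n => (1 / 2 : ℝ) ^ L n := by
    intro h
    apply hs
    refine Summable.of_nonneg_of_le (fun n => by positivity) (fun n => ?_) (h.mul_left 2)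
    have h6 : (0 : ℝ) < b n := by
      have := hb n
      exact_mod_cast (by omega : 0 < b n)
    have h7 : (2 : ℝ) ^ L n < 2 * b n := by exact_mod_cast hL2 n
    rw [one_div_pow, mul_one_div, div_le_div_iff₀ h6 (by positivity)]
    linarith
  obtain ⟨j, hj, hj0, hjs⟩ := exists_blocks (fun n => by positivity) ha
  let N : (∀ n, Fin (b n)) → Set Cantor :=
    fun f => {x | ∃ᶠ n in atTop, ∀ k ∈ blocks j n, dec e x k ≠ f k}
  have hN : ∀ f, N f ∈ nullIdeal := by
    intro f
    show coin (N f) = 0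
    apply measure_setOfPred_frequently_eq_zero
    have hle : ∀ n : ℕ, coin {x | ∀ k ∈ blocks j n, dec e x k ≠ f k} ≤
        ENNReal.ofReal (Real.exp (-1) ^ n) := by
      intro n
      refine (no_match_le e he f (blocks j n)).trans ?_
      apply ENNReal.ofReal_le_ofReal
      rw [← Real.exp_nat_mul]
      apply Real.exp_le_exp.2
      have := hjs n
      unfold blocks
      linarith
    apply ne_top_of_le_ne_top _ (ENNReal.tsum_le_tsum hle)
    apply Summable.tsum_ofReal_ne_top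
    apply summable_geometric_of_lt_one (Real.exp_pos _).le
    rw [Real.exp_lt_one_iff]
    norm_num
  have hnot : ⋃₀ (N '' F) ≠ Set.univ := by
    intro huniv
    have h1 : cov nullIdeal ≤ #(N '' F) := by
      apply csInf_le'
      refine ⟨N '' F, ?_, huniv, rfl⟩
      rintro _ ⟨f, _, rfl⟩
      exact hN f
    exact absurd (h1.trans Cardinal.mk_image_le) (not_le.2 hcon)
  obtain ⟨x, hx⟩ := (Set.ne_univ_iff_exists_notMem _).1 hnot
  refine ⟨blocks j, dec e x, blocks_partition j hj hj0, fun f hf => ?_⟩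
  have h2 : x ∉ N f := fun hxf => hx ⟨N f, ⟨f, hf, rfl⟩, hxf⟩
  have h3 : ¬ ∃ᶠ n in atTop, ∀ k ∈ blocks j n, dec e x k ≠ f k := h2
  rw [Filter.not_frequently] at h3
  refine h3.mono fun n hn => ?_
  push Not at hn
  obtain ⟨k, hk, hk'⟩ := hn
  exact ⟨k, hk, hk'.symm⟩

/-- **Theorem.** Let all values of `b` be at least `2`. Then `min {𝔟, e_b} ≤ 𝔟_b^eq ≤ e_b`;
`𝔟_b^eq < 𝔟` if and only if `e_b < 𝔟`, and in this case `𝔟_b^eq = e_b`, `cov(ℳ) ≤ 𝔟_b^eq` and
`b` tends to infinity; if `b` does not tend to infinity, then `𝔟_b^eq = non(ℳ)`; if the series of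
the `1 / b n` converges, then `e_b ≤ non(𝒩)` (so that `non(𝒩) < 𝔟` implies `𝔟_b^eq < 𝔟`), and if
it diverges, then `cov(𝒩) ≤ 𝔟_b^eq`. -/
theorem result (b : ℕ → ℕ) (hb : ∀ n, 2 ≤ b n) :
    (min bNum (eNum b) ≤ bEq b ∧ bEq b ≤ eNum b) ∧
    (bEq b < bNum ↔ eNum b < bNum) ∧
    (bEq b < bNum → bEq b = eNum b ∧ cov meagerIdeal ≤ bEq b ∧ Tendsto b atTop atTop) ∧
    (¬ Tendsto b atTop atTop → bEq b = non meagerIdeal) ∧
    ((Summable fun n => (1 : ℝ) / b n) → eNum b ≤ non nullIdeal) ∧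
    ((¬ Summable fun n => (1 : ℝ) / b n) → cov nullIdeal ≤ bEq b) := by
  have hnt : ¬ Tendsto b atTop atTop → bEq b = non meagerIdeal ∧ eNum b = 𝔠 := by
    intro hb'
    rw [Filter.tendsto_atTop] at hb'
    push Not at hb'
    obtain ⟨K, hK⟩ := hb'
    have hK' : ∃ᶠ n in atTop, b n < K := hK
    obtain ⟨s, hs, hsb⟩ := extraction_of_frequently_atTop hK'
    exact ⟨le_antisymm (bEq_le_non hb) (non_le_bEq hb s hs hsb),
      le_antisymm (eNum_le hb) (continuum_le_eNum hb s hs hsb)⟩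
  have h1 := min_le_bEq hb
  have h2 := bEq_le_eNum hb
  have h3 : bEq b < bNum → bEq b = eNum b := by
    intro h
    rcases min_le_iff.1 h1 with h4 | h4
    · exact absurd h (not_lt.2 h4)
    · exact le_antisymm h2 h4
  refine ⟨⟨h1, h2⟩, ⟨fun h => (h3 h) ▸ h, fun h => h2.trans_lt h⟩,
    fun h => ⟨h3 h, ?_, ?_⟩, fun h => (hnt h).1, eNum_le_non_null hb, cov_null_le_bEq hb⟩
  · rw [h3 h]
    exact cov_le_eNum hb
  · by_contra hc
    have h4 := (hnt hc).2
    rw [h3 h, h4] at h
    exact absurd bNum_le (not_le.2 h)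

end Pool.Agent.Results.MP_b3eba0_lc.BelowBounding
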