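import Mathlib

/-!
The ten-value chain of the question, with `𝔟_b^eq` below `𝔟`, is refuted.
-/

open Filter MeasureTheory
open scoped Cardinal

namespace Pool.Agent.Results.MP_b3eba0_lc.ChainRefuted

/-- The Cantor space `2^ω`, with the product topology. -/
abbrev Cantor : Type := ℕ → Bool

/-- The product measure on `2^ω` of the uniform measures on the two-point space. -/
noncomputable def coin : Measure Cantor :=
  Measure.infinitePi fun _ : ℕ => (PMF.uniformOfFintype Bool).toMeasure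

/-- The ideal `𝒩` of null sets. -/
def nullIdeal : Set (Set Cantor) := {A | coin A = 0}

/-- The ideal `ℳ` of meager sets. -/
def meagerIdeal : Set (Set Cantor) := {A | IsMeagre A}

/-- The `σ`-ideal `ℰ` generated by the closed null sets. -/
def closedNullIdeal : Set (Set Cantor) :=
  {A | ∃ C : ℕ → Set Cantor, (∀ n, IsClosed (C n) ∧ coin (C n) = 0) ∧ A ⊆ ⋃ n, C n}

/-- The additivity of an ideal. -/
noncomputable def add (I : Set (Set Cantor)) : Cardinal.{0} :=
  sInf {κ | ∃ 𝒜 : Set (Set Cantor), 𝒜 ⊆ I ∧ ⋃₀ 𝒜 ∉ I ∧ κ = #𝒜}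

/-- The covering number of an ideal. -/
noncomputable def cov (I : Set (Set Cantor)) : Cardinal.{0} :=
  sInf {κ | ∃ 𝒜 : Set (Set Cantor), 𝒜 ⊆ I ∧ ⋃₀ 𝒜 = Set.univ ∧ κ = #𝒜}

/-- The uniformity of an ideal. -/
noncomputable def non (I : Set (Set Cantor)) : Cardinal.{0} :=
  sInf {κ | ∃ A : Set Cantor, A ∉ I ∧ κ = #A}

/-- The cofinality of an ideal. -/
noncomputable def cof (I : Set (Set Cantor)) : Cardinal.{0} :=
  sInf {κ | ∃ 𝒜 : Set (Set Cantor), 𝒜 ⊆ I ∧ (∀ B ∈ I, ∃ A ∈ 𝒜, B ⊆ A) ∧ κ = #𝒜}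

/-- The bounding number `𝔟`. -/
noncomputable def bNum : Cardinal.{0} :=
  sInf {κ | ∃ F : Set (ℕ → ℕ), (¬ ∃ g : ℕ → ℕ, ∀ f ∈ F, ∀ᶠ n in atTop, f n ≤ g n) ∧ κ = #F}

/-- The dominating number `𝔡`. -/
noncomputable def dNum : Cardinal.{0} :=
  sInf {κ | ∃ D : Set (ℕ → ℕ), (∀ f : ℕ → ℕ, ∃ g ∈ D, ∀ᶠ n in atTop, f n ≤ g n) ∧ κ = #D}

/-- `J` is a partition of `ω` into finite non-empty intervals. -/
structure IsIntervalPartition (J : ℕ → Finset ℕ) : Prop where
  nonempty : ∀ n, (J n).Nonempty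
  interval : ∀ n, ∀ i ∈ J n, ∀ k ∈ J n, ∀ j, i ≤ j → j ≤ k → j ∈ J n
  disjoint : ∀ m n, m ≠ n → Disjoint (J m) (J n)
  cover : ∀ k, ∃ n, k ∈ J n

/-- The relation `f ⊏• (J, h)`: for all but finitely many `n` there is `k ∈ J n` with
`f k = h k`. -/
def Matches {b : ℕ → ℕ} (f : ∀ n, Fin (b n)) (J : ℕ → Finset ℕ) (h : ∀ n, Fin (b n)) : Prop :=
  ∀ᶠ n in atTop, ∃ k ∈ J n, f k = h k

/-- The cardinal `𝔟_b^eq`. -/
noncomputable def bEq (b : ℕ → ℕ) : Cardinal.{0} :=
  sInf {κ | ∃ F : Set (∀ n, Fin (b n)),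
    (¬ ∃ (J : ℕ → Finset ℕ) (h : ∀ n, Fin (b n)), IsIntervalPartition J ∧
      ∀ f ∈ F, Matches f J h) ∧ κ = #F}

/-! ### Decoding a point of `∏ b` from a point of `2^ω` -/

section decode

variable {b : ℕ → ℕ} (hb : ∀ n, 2 ≤ b n)

include hb

/-- The decoded function. -/
noncomputable def decode (x : Cantor) (k : ℕ) : Fin (b k) :=
  open Classical in
  if h : ∃ i : Fin (b k), x (Nat.pair k i) = true ∧
      ∀ i' : Fin (b k), x (Nat.pair k i') = true → i' = i
  then h.choose else ⟨0, by have := hb k; omega⟩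

theorem decode_eq (x : Cantor) (k : ℕ) (v : Fin (b k))
    (hx : ∀ i : Fin (b k), x (Nat.pair k i) = true ↔ i = v) : decode hb x k = v := by
  have h : ∃ i : Fin (b k), x (Nat.pair k i) = true ∧
      ∀ i' : Fin (b k), x (Nat.pair k i') = true → i' = i :=
    ⟨v, (hx v).2 rfl, fun i' hi' => (hx i').1 hi'⟩
  unfold decode
  rw [dif_pos h]
  exact (hx _).1 h.choose_spec.1

theorem nowhereDense (f : ∀ n, Fin (b n)) (m : ℕ) :
    IsNowhereDense {x : Cantor | ∀ k, m ≤ k → decode hb x k ≠ f k} := by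
  set S : Set Cantor := {x : Cantor | ∀ k, m ≤ k → decode hb x k ≠ f k} with hS
  unfold IsNowhereDense
  by_contra hne
  obtain ⟨x, hx⟩ := Set.nonempty_iff_ne_empty.2 hne
  have hbasis := PiNat.isTopologicalBasis_cylinders (E := fun _ : ℕ => Bool)
  obtain ⟨U, ⟨z, n, rfl⟩, hxU, hU⟩ := hbasis.exists_subset_of_mem_open hx isOpen_interior
  set k : ℕ := max m n with hk
  -- the modified point
  let y : Cantor := fun i => if i < n then x i else decide ((Nat.unpair i).2 = (f k : ℕ))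
  have hyU : y ∈ PiNat.cylinder z n := by
    rw [PiNat.mem_cylinder_iff] at hxU ⊢
    intro i hi
    simp only [y, hi, if_true]
    exact hxU i hi
  have hycl : y ∈ closure S := interior_subset (hU hyU)
  rw [mem_closure_iff] at hycl
  obtain ⟨w, hwV, hwS⟩ := hycl (PiNat.cylinder y (Nat.pair k (b k)))
    (PiNat.isOpen_cylinder _ _ _) (PiNat.self_mem_cylinder _ _)
  rw [PiNat.mem_cylinder_iff] at hwV
  apply hwS k (le_max_left _ _)
  apply decode_eq
  intro i
  have h1 : Nat.pair k i < Nat.pair k (b k) := Nat.pair_lt_pair_right _ i.2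
  have h2 : ¬ Nat.pair k i < n := by
    have := Nat.left_le_pair k i
    have := le_max_right m n
    omega
  rw [hwV _ h1]
  simp only [y, h2, if_false, Nat.unpair_pair, decide_eq_true_eq]
  exact ⟨fun h => Fin.ext h, fun h => by rw [h]⟩

theorem meagre (f : ∀ n, Fin (b n)) :
    IsMeagre {x : Cantor | ∀ᶠ k in atTop, decode hb x k ≠ f k} := by
  have : {x : Cantor | ∀ᶠ k in atTop, decode hb x k ≠ f k} =
      ⋃ m : ℕ, {x : Cantor | ∀ k, m ≤ k → decode hb x k ≠ f k} := by
    ext x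
    simp only [Set.mem_ofPred_eq, Set.mem_iUnion, eventually_atTop]
  rw [this]
  exact isMeagre_iUnion fun m => (nowhereDense hb f m).isMeagre

/-- A family smaller than `cov(ℳ)` has a common infinitely-often-equal function. -/
theorem exists_io_equal (F : Set (∀ n, Fin (b n))) (hF : #F < cov meagerIdeal) :
    ∃ h : ∀ n, Fin (b n), ∀ f ∈ F, ∃ᶠ k in atTop, f k = h k := by
  let B : (∀ n, Fin (b n)) → Set Cantor :=
    fun f => {x : Cantor | ∀ᶠ k in atTop, decode hb x k ≠ f k}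
  have hnot : ⋃₀ (B '' F) ≠ Set.univ := by
    intro huniv
    have h1 : cov meagerIdeal ≤ #(B '' F) := by
      apply csInf_le'
      refine ⟨B '' F, ?_, huniv, rfl⟩
      rintro _ ⟨f, _, rfl⟩
      exact meagre hb f
    exact absurd (h1.trans Cardinal.mk_image_le) (not_le.2 hF)
  obtain ⟨x, hx⟩ := (Set.ne_univ_iff_exists_notMem _).1 hnot
  refine ⟨decode hb x, fun f hf => ?_⟩
  have h2 : x ∉ B f := fun hxf => hx ⟨B f, ⟨f, hf, rfl⟩, hxf⟩
  have h3 : ¬ ∀ᶠ k in atTop, decode hb x k ≠ f k := h2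
  rw [Filter.not_eventually] at h3
  exact h3.mono fun k hk => (not_not.1 hk).symm

end decode

/-! ### Interval partitions from increasing sequences -/

/-- The `n`-th interval of the sequence `j`. -/
def blocks (j : ℕ → ℕ) (n : ℕ) : Finset ℕ := Finset.Ico (j n) (j (n + 1))

theorem blocks_partition (j : ℕ → ℕ) (hj : StrictMono j) (h0 : j 0 = 0) :
    IsIntervalPartition (blocks j) where
  nonempty n := by
    rw [blocks, Finset.nonempty_Ico]
    exact hj (Nat.lt_succ_self n)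
  interval n i hi k hk l hil hlk := by
    rw [blocks, Finset.mem_Ico] at *
    omega
  disjoint m n hmn := by
    have key : ∀ m n, m < n → Disjoint (blocks j m) (blocks j n) := by
      intro m n hmn
      rw [Finset.disjoint_left]
      intro a ha ha'
      rw [blocks, Finset.mem_Ico] at ha ha'
      have := hj.monotone (Nat.succ_le_of_lt hmn)
      simp only [Nat.succ_eq_add_one] at this
      omega
    rcases lt_or_gt_of_ne hmn with h | h
    · exact key m n h
    · exact (key n m h).symm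
  cover k := by
    have hex : ∃ n, k < j (n + 1) := ⟨k, lt_of_lt_of_le (Nat.lt_succ_self k) (hj.le_apply)⟩
    classical
    refine ⟨Nat.find hex, ?_⟩
    rw [blocks, Finset.mem_Ico]
    refine ⟨?_, Nat.find_spec hex⟩
    rcases Nat.eq_zero_or_pos (Nat.find hex) with h | h
    · rw [h, h0]; exact Nat.zero_le _
    · have := Nat.find_min hex (Nat.sub_lt h Nat.one_pos)
      rw [Nat.sub_add_cancel h] at this
      exact not_lt.1 this

/-- The sequence of end points attached to `g`. -/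
def ends (g : ℕ → ℕ) : ℕ → ℕ
  | 0 => 0
  | n + 1 => max (ends g n) (g (ends g n)) + 1

theorem ends_strictMono (g : ℕ → ℕ) : StrictMono (ends g) := by
  apply strictMono_nat_of_lt_succ
  intro n
  show ends g n < max (ends g n) (g (ends g n)) + 1
  exact Nat.lt_succ_of_le (le_max_left _ _)

/-! ### The inequality `min {𝔟, cov(ℳ)} ≤ 𝔟_b^eq` -/

theorem exists_match {b : ℕ → ℕ} (hb : ∀ n, 2 ≤ b n) (F : Set (∀ n, Fin (b n)))
    (hF : #F < cov meagerIdeal) (hF' : #F < bNum) :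
    ∃ (J : ℕ → Finset ℕ) (h : ∀ n, Fin (b n)), IsIntervalPartition J ∧
      ∀ f ∈ F, Matches f J h := by
  classical
  obtain ⟨h, hh⟩ := exists_io_equal hb F hF
  have hgap : ∀ f ∈ F, ∀ n, ∃ k, n ≤ k ∧ f k = h k := by
    intro f hf n
    obtain ⟨k, hk, hk'⟩ := (frequently_atTop.1 (hh f hf)) n
    exact ⟨k, hk, hk'⟩
  let gap : F → (ℕ → ℕ) := fun f n => Nat.find (hgap f.1 f.2 n)
  have hbdd : ∃ g : ℕ → ℕ, ∀ u ∈ Set.range gap, ∀ᶠ n in atTop, u n ≤ g n := by
    by_contra hcon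
    have h1 : bNum ≤ #(Set.range gap) := csInf_le' ⟨Set.range gap, hcon, rfl⟩
    exact absurd (h1.trans Cardinal.mk_range_le) (not_le.2 hF')
  obtain ⟨g, hg⟩ := hbdd
  refine ⟨blocks (ends g), h, blocks_partition _ (ends_strictMono g) rfl, ?_⟩
  intro f hf
  have h2 := hg (gap ⟨f, hf⟩) ⟨_, rfl⟩
  have h3 : ∀ᶠ n in atTop, gap ⟨f, hf⟩ (ends g n) ≤ g (ends g n) :=
    (ends_strictMono g).tendsto_atTop.eventually h2
  refine h3.mono fun n hn => ?_
  have hspec := Nat.find_spec (hgap f hf (ends g n))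
  refine ⟨gap ⟨f, hf⟩ (ends g n), ?_, hspec.2⟩
  rw [blocks, Finset.mem_Ico]
  refine ⟨hspec.1, ?_⟩
  show gap ⟨f, hf⟩ (ends g n) < max (ends g n) (g (ends g n)) + 1
  exact Nat.lt_succ_of_le (hn.trans (le_max_right _ _))

/-- For every `b` with all values at least `2`, at least one of the ten strict inequalities of the
chain fails. -/
theorem result (b : ℕ → ℕ) (hb : ∀ n, 2 ≤ b n) :
    ¬ (ℵ_ 1 < add nullIdeal ∧ add nullIdeal < cov nullIdeal ∧ cov nullIdeal < bEq b ∧
      bEq b < bNum ∧ bNum < non closedNullIdeal ∧ non closedNullIdeal < non meagerIdeal ∧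
      non meagerIdeal < cov meagerIdeal ∧ cov meagerIdeal < dNum ∧ dNum < non nullIdeal ∧
      non nullIdeal < cof nullIdeal) := by
  rintro ⟨-, -, h3, h4, h5, h6, h7, -, -, -⟩
  have hne : {κ : Cardinal.{0} | ∃ F : Set (∀ n, Fin (b n)),
      (¬ ∃ (J : ℕ → Finset ℕ) (h : ∀ n, Fin (b n)), IsIntervalPartition J ∧
        ∀ f ∈ F, Matches f J h) ∧ κ = #F}.Nonempty := by
    by_contra hcon
    rw [Set.not_nonempty_iff_eq_empty] at hcon
    have : bEq b = 0 := by
      unfold bEq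
      rw [hcon, Cardinal.sInf_empty]
    rw [this] at h3
    exact absurd h3 (zero_le).not_gt
  obtain ⟨F, hF, hcard⟩ := csInf_mem hne
  change bEq b = #F at hcard
  apply hF
  rw [hcard] at h4
  exact exists_match hb F (h4.trans (h5.trans (h6.trans h7))) h4

end Pool.Agent.Results.MP_b3eba0_lc.ChainRefuted
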